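import Pool.Agent.V5helper51.EG.Stm
import Pool.Agent.H402R2.SubMean

set_option autoImplicit false

/-!
# EG/Cell: the supremum over a cell and the mean over a disc (helper16)
-/

namespace Pool.Agent.V5helper16.EG.Cell

open MeasureTheory Set Metric
open scoped ENNReal Real
open Pool.Agent.N748.MG (mz pw)

/-- the integral over a part of the strip, as a double integral -/
lemma rect_integral (f : ℂ → ℝ≥0∞) (hf : Measurable f) (a b c d : ℝ) :
    ∫⁻ z in {z : ℂ | z.re ∈ Ioo a b ∧ z.im ∈ Ioo c d}, f z =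
      ∫⁻ v in Ioo c d, ∫⁻ x in Ioo a b, f ((x : ℂ) + (v : ℂ) * Complex.I) := by
  have h1 := (Complex.volume_preserving_equiv_real_prod.symm).setLIntegral_comp_preimage_emb
    Complex.measurableEquivRealProd.symm.measurableEmbedding f
    {z : ℂ | z.re ∈ Ioo a b ∧ z.im ∈ Ioo c d}
  have h2 : Complex.measurableEquivRealProd.symm ⁻¹' {z : ℂ | z.re ∈ Ioo a b ∧ z.im ∈ Ioo c d} =
      Ioo a b ×ˢ Ioo c d := by
    ext p
    simp [Complex.measurableEquivRealProd]
  rw [h2] at h1
  have h3 : ∀ p : ℝ × ℝ, Complex.measurableEquivRealProd.symm p =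
      (p.1 : ℂ) + (p.2 : ℂ) * Complex.I := by
    intro p
    apply Complex.ext <;> simp [Complex.measurableEquivRealProd]
  rw [← h1]
  have hm : Measurable fun p : ℝ × ℝ => f ((p.1 : ℂ) + (p.2 : ℂ) * Complex.I) :=
    hf.comp (by fun_prop)
  rw [Measure.volume_eq_prod, ← Measure.prod_restrict]
  have h4 : ∫⁻ p : ℝ × ℝ, f (Complex.measurableEquivRealProd.symm p)
      ∂((volume.restrict (Ioo a b)).prod (volume.restrict (Ioo c d))) =
      ∫⁻ p : ℝ × ℝ, f ((p.1 : ℂ) + (p.2 : ℂ) * Complex.I)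
      ∂((volume.restrict (Ioo a b)).prod (volume.restrict (Ioo c d))) := by
    congr 1
    funext p
    rw [h3]
  rw [h4, lintegral_prod_symm _ hm.aemeasurable]

/-- the double integral over windows -/
lemma window (W : ℝ → ℝ≥0∞) (hW : Measurable W) (X1 X2 p q : ℝ) :
    Measurable (fun t : ℝ => ∫⁻ v in Ioo (t - p) (t + q), W v) ∧
    ∫⁻ t in Icc (X1 + p) (X2 - q), ∫⁻ v in Ioo (t - p) (t + q), W v ≤
      ENNReal.ofReal (p + q) * ∫⁻ v in Ioo X1 X2, W v := by
  set S : Set (ℝ × ℝ) := {r | r.1 - p < r.2 ∧ r.2 < r.1 + q} with hS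
  have hSm : MeasurableSet S := by
    have h1 : IsOpen S := (isOpen_lt (continuous_fst.sub continuous_const) continuous_snd).inter
      (isOpen_lt continuous_snd (continuous_fst.add continuous_const))
    exact h1.measurableSet
  set F : ℝ × ℝ → ℝ≥0∞ := S.indicator fun r => W r.2 with hF
  have hFm : Measurable F := (hW.comp measurable_snd).indicator hSm
  have e1 : ∀ t : ℝ, ∫⁻ v in Ioo (t - p) (t + q), W v = ∫⁻ v, F (t, v) := by
    intro t
    rw [← lintegral_indicator measurableSet_Ioo]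
    congr 1
  constructor
  · simp only [e1]
    exact hFm.lintegral_prod_right'
  · simp only [e1]
    rw [lintegral_lintegral_swap (f := fun t v => F (t, v)) hFm.aemeasurable]
    have e2 : ENNReal.ofReal (p + q) * ∫⁻ v in Ioo X1 X2, W v =
        ∫⁻ v, (Ioo X1 X2).indicator (fun v => ENNReal.ofReal (p + q) * W v) v := by
      rw [lintegral_indicator measurableSet_Ioo, lintegral_const_mul _ hW]
    rw [e2]
    refine lintegral_mono fun v => ?_
    by_cases hv : v ∈ Ioo X1 X2
    · rw [Set.indicator_of_mem hv]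
      calc ∫⁻ t in Icc (X1 + p) (X2 - q), F (t, v) ≤ ∫⁻ t, F (t, v) :=
            setLIntegral_le_lintegral _ _
        _ = ∫⁻ t, (Ioo (v - q) (v + p)).indicator (fun _ => W v) t := by
            congr 1
            funext t
            by_cases ht : t ∈ Ioo (v - q) (v + p)
            · rw [Set.indicator_of_mem ht, hF, Set.indicator_of_mem]
              exact ⟨by linarith [ht.2], by linarith [ht.1]⟩
            · rw [Set.indicator_of_notMem ht, hF, Set.indicator_of_notMem]
              rintro ⟨h1, h2⟩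
              exact ht ⟨by simp only at h2; linarith, by simp only at h1; linarith⟩
        _ = ENNReal.ofReal (p + q) * W v := by
            rw [lintegral_indicator measurableSet_Ioo, setLIntegral_const, Real.volume_Ioo,
              mul_comm]
            congr 2
            ring
        _ ≤ _ := le_rfl
    · rw [Set.indicator_of_notMem hv]
      have h3 : ∫⁻ t in Icc (X1 + p) (X2 - q), F (t, v) = 0 := by
        rw [setLIntegral_congr_fun (g := fun _ => 0) measurableSet_Icc, lintegral_zero]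
        intro t ht
        simp only [hF]
        rw [Set.indicator_of_notMem]
        rintro ⟨h1, h2⟩
        exact hv ⟨by simp only at h1; linarith [ht.1], by simp only at h2; linarith [ht.2]⟩
      rw [h3]

open Classical in
/-- the large part of the modulus of zeta -/
noncomputable def big (a x : ℝ) : ℝ≥0∞ := if a < x then ENNReal.ofReal x else 0

lemma big_meas (a : ℝ) : Measurable (big a) := by
  unfold big
  exact Measurable.ite measurableSet_Ioi ENNReal.measurable_ofReal measurable_const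

lemma le_big (a x : ℝ) : ENNReal.ofReal x ≤ ENNReal.ofReal a + big a x := by
  unfold big
  split_ifs with h
  · exact le_add_self
  · rw [add_zero]
    exact ENNReal.ofReal_le_ofReal (not_lt.1 h)

theorem cell {δ X1 X2 a S : ℝ} (hδ : 0 < δ) (hδ2 : δ ≤ 1 / 16) (ha : 0 < a) (hS : 0 ≤ S)
    (hint : ∀ σ : ℝ, δ / 2 ≤ σ → σ ≤ 3 * δ / 2 → ∫⁻ t in Ioo X1 X2, big a (mz σ t) ≤ ENNReal.ofReal S) :
    volume {t : ℝ | X1 + δ ≤ t ∧ t + 2 * δ ≤ X2 ∧ ∃ u : ℝ, t ≤ u ∧ u ≤ t + δ ∧ 2 * a ≤ mz δ u} ≤
      ENNReal.ofReal (12 * S / (π * a)) := by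
  classical
  set strip : Set ℂ := {s | 1 / 2 < s.re ∧ s.re < 1} with hstrip
  have hso : IsOpen strip := (isOpen_lt continuous_const Complex.continuous_re).inter
    (isOpen_lt Complex.continuous_re continuous_const)
  have hΦ : DifferentiableOn ℂ riemannZeta strip := by
    intro s hs
    refine (differentiableAt_riemannZeta ?_).differentiableWithinAt
    intro h
    have h2 := hs.2
    rw [h] at h2
    simp at h2
  set Ψ : ℂ → ℂ := strip.piecewise riemannZeta (fun _ => 0) with hΨd
  have hΨm : Measurable Ψ :=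
    ContinuousOn.measurable_piecewise hΦ.continuousOn continuousOn_const hso.measurableSet
  have hΨ : ∀ z ∈ strip, Ψ z = riemannZeta z := fun z hz => Set.piecewise_eq_of_mem _ _ _ hz
  set f : ℂ → ℝ≥0∞ := fun z => big a ‖Ψ z‖ with hf
  have hfm : Measurable f := (big_meas a).comp hΨm.norm
  set W : ℝ → ℝ≥0∞ := fun v => ∫⁻ x in Ioo (1 / 2 + δ / 2) (1 / 2 + 3 * δ / 2),
    f ((x : ℂ) + (v : ℂ) * Complex.I) with hW
  have hfm2 : Measurable fun p : ℝ × ℝ => f ((p.1 : ℂ) + (p.2 : ℂ) * Complex.I) :=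
    hfm.comp (by fun_prop)
  have hWm : Measurable W := by
    have : Measurable fun p : ℝ × ℝ => f ((p.2 : ℂ) + (p.1 : ℂ) * Complex.I) :=
      hfm.comp (by fun_prop)
    exact this.lintegral_prod_right'
  obtain ⟨hwm, hwin⟩ := window W hWm X1 X2 δ (2 * δ)
  set h : ℝ → ℝ≥0∞ := fun t => ∫⁻ v in Ioo (t - δ) (t + 2 * δ), W v with hh
  -- the values at the points
  have keyA : ∀ t : ℝ, (∃ u : ℝ, t ≤ u ∧ u ≤ t + δ ∧ 2 * a ≤ mz δ u) →
      ENNReal.ofReal (a * (π * (δ / 2) ^ 2)) ≤ h t := by
    rintro t ⟨u, hu1, hu2, hu3⟩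
    set s0 : ℂ := pw δ u with hs0
    have hre : s0.re = 1 / 2 + δ := by simp [hs0, pw]
    have him : s0.im = u := by simp [hs0, pw]
    have hball : ∀ z ∈ ball s0 (δ / 2), 1 / 2 + δ / 2 < z.re ∧ z.re < 1 / 2 + 3 * δ / 2 ∧
        t - δ < z.im ∧ z.im < t + 2 * δ := by
      intro z hz
      rw [mem_ball, dist_eq_norm] at hz
      have h1 := (abs_lt.1 ((Complex.abs_re_le_norm (z - s0)).trans_lt hz))
      have h2 := (abs_lt.1 ((Complex.abs_im_le_norm (z - s0)).trans_lt hz))
      rw [Complex.sub_re, hre] at h1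
      rw [Complex.sub_im, him] at h2
      refine ⟨by linarith [h1.1], by linarith [h1.2], by linarith [h2.1], by linarith [h2.2]⟩
    have hbs : ball s0 (δ / 2) ⊆ strip := fun z hz => by
      obtain ⟨h1, h2, -, -⟩ := hball z hz
      exact ⟨by linarith, by linarith⟩
    have h1 := Pool.Agent.H402R2.SubMean.rpow_mul_le_lintegral (g := riemannZeta) (w := s0) (ρ := δ / 2)
      (p := 1) (by positivity) one_pos (hΦ.mono hbs)
    rw [Real.rpow_one] at h1
    have h2 : ENNReal.ofReal (2 * a * (π * (δ / 2) ^ 2)) ≤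
        ENNReal.ofReal (‖riemannZeta s0‖ * (π * (δ / 2) ^ 2)) := by
      apply ENNReal.ofReal_le_ofReal
      exact mul_le_mul_of_nonneg_right hu3 (by positivity)
    have h3 : ∫⁻ z in ball s0 (δ / 2), ‖riemannZeta z‖ₑ ^ (1:ℝ) ≤
        ENNReal.ofReal (a * (π * (δ / 2) ^ 2)) + ∫⁻ z in ball s0 (δ / 2), f z := by
      calc ∫⁻ z in ball s0 (δ / 2), ‖riemannZeta z‖ₑ ^ (1:ℝ) ≤
            ∫⁻ z in ball s0 (δ / 2), (ENNReal.ofReal a + f z) := by
              refine setLIntegral_mono' measurableSet_ball fun z hz => ?_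
              simp only [hf]
              rw [hΨ z (hbs hz), ENNReal.rpow_one, ← ofReal_norm]
              exact le_big a _
        _ = (∫⁻ _z in ball s0 (δ / 2), ENNReal.ofReal a) + ∫⁻ z in ball s0 (δ / 2), f z :=
              lintegral_add_left measurable_const _
        _ = _ := by
              congr 1
              rw [setLIntegral_const, Complex.volume_ball, ENNReal.ofReal_mul ha.le]
              congr 1
              rw [mul_comm π, ENNReal.ofReal_mul (by positivity), ENNReal.ofReal_pow (by positivity)]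
              congr 1
              rw [← NNReal.coe_real_pi, ENNReal.ofReal_coe_nnreal]
    have h4 : ∫⁻ z in ball s0 (δ / 2), f z ≤
        ∫⁻ z in {z : ℂ | z.re ∈ Ioo (1 / 2 + δ / 2) (1 / 2 + 3 * δ / 2) ∧
          z.im ∈ Ioo (t - δ) (t + 2 * δ)}, f z := by
      refine lintegral_mono_set fun z hz => ?_
      obtain ⟨g1, g2, g3, g4⟩ := hball z hz
      exact ⟨⟨g1, g2⟩, ⟨g3, g4⟩⟩
    rw [rect_integral f hfm] at h4
    have h5 := h2.trans (h1.trans (h3.trans (add_le_add le_rfl h4)))
    have e1 : ENNReal.ofReal (2 * a * (π * (δ / 2) ^ 2)) =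
        ENNReal.ofReal (a * (π * (δ / 2) ^ 2)) + ENNReal.ofReal (a * (π * (δ / 2) ^ 2)) := by
      rw [← ENNReal.ofReal_add (by positivity) (by positivity)]
      congr 1
      ring
    rw [e1] at h5
    exact (ENNReal.add_le_add_iff_left ENNReal.ofReal_ne_top).1 h5
  -- the mean
  have keyB : ∫⁻ v in Ioo X1 X2, W v ≤ ENNReal.ofReal (S * δ) := by
    have hsw : ∫⁻ v in Ioo X1 X2, W v =
        ∫⁻ x in Ioo (1 / 2 + δ / 2) (1 / 2 + 3 * δ / 2), ∫⁻ v in Ioo X1 X2,
          f ((x : ℂ) + (v : ℂ) * Complex.I) := by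
      rw [lintegral_lintegral_swap]
      exact (hfm2.comp measurable_swap).aemeasurable
    rw [hsw]
    have hle : ∀ x ∈ Ioo (1 / 2 + δ / 2) (1 / 2 + 3 * δ / 2), ∫⁻ v in Ioo X1 X2,
          f ((x : ℂ) + (v : ℂ) * Complex.I) ≤ ENNReal.ofReal S := by
      intro x hx
      have hmem : ∀ v : ℝ, (x : ℂ) + (v : ℂ) * Complex.I ∈ strip := by
        intro v
        have hr : ((x : ℂ) + (v : ℂ) * Complex.I).re = x := by simp
        exact ⟨by rw [hr]; linarith [hx.1], by rw [hr]; linarith [hx.2]⟩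
      have h5 := hint (x - 1 / 2) (by linarith [hx.1]) (by linarith [hx.2])
      refine le_trans (le_of_eq ?_) h5
      congr 1
      funext v
      simp only [hf]
      rw [hΨ _ (hmem v)]
      congr 2
      simp only [pw]
      congr 2
      push_cast
      ring
    calc ∫⁻ x in Ioo (1 / 2 + δ / 2) (1 / 2 + 3 * δ / 2), ∫⁻ v in Ioo X1 X2,
          f ((x : ℂ) + (v : ℂ) * Complex.I) ≤
          ∫⁻ _x in Ioo (1 / 2 + δ / 2) (1 / 2 + 3 * δ / 2), ENNReal.ofReal S :=
          setLIntegral_mono' measurableSet_Ioo hle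
      _ = ENNReal.ofReal (S * δ) := by
          rw [setLIntegral_const, Real.volume_Ioo, ENNReal.ofReal_mul hS]
          congr 2
          ring
  -- conclusion
  set m : ℝ := a * (π * (δ / 2) ^ 2) with hm
  have hm0 : 0 < m := by positivity
  set A : Set ℝ := {t : ℝ | X1 + δ ≤ t ∧ t + 2 * δ ≤ X2 ∧ ∃ u : ℝ, t ≤ u ∧ u ≤ t + δ ∧
    2 * a ≤ mz δ u} with hA
  have hAsub : A ⊆ {t | ENNReal.ofReal m ≤ h t} ∩ Icc (X1 + δ) (X2 - 2 * δ) := by
    rintro t ⟨h1, h2, h3⟩
    exact ⟨keyA t h3, ⟨h1, by linarith⟩⟩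
  have h6 : volume A ≤ (volume.restrict (Icc (X1 + δ) (X2 - 2 * δ)))
      {t | ENNReal.ofReal m ≤ h t} := by
    rw [Measure.restrict_apply (measurableSet_le measurable_const hwm)]
    exact measure_mono hAsub
  have h7 := meas_ge_le_lintegral_div (μ := volume.restrict (Icc (X1 + δ) (X2 - 2 * δ)))
    hwm.aemeasurable (ε := ENNReal.ofReal m) (by simpa using hm0) ENNReal.ofReal_ne_top
  refine h6.trans (h7.trans ?_)
  rw [ENNReal.div_le_iff (by simpa using hm0) ENNReal.ofReal_ne_top]
  refine hwin.trans ?_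
  calc ENNReal.ofReal (δ + 2 * δ) * ∫⁻ v in Ioo X1 X2, W v ≤
        ENNReal.ofReal (δ + 2 * δ) * ENNReal.ofReal (S * δ) := mul_le_mul_right keyB _
    _ = ENNReal.ofReal (12 * S / (π * a)) * ENNReal.ofReal m := by
        rw [← ENNReal.ofReal_mul (by positivity), ← ENNReal.ofReal_mul (by positivity)]
        congr 1
        rw [hm]
        field_simp
        ring

/-! ### layers -/

lemma big_layers (a x : ℝ) (J : ℕ) :
    big a x ≤ ∑ j ∈ Finset.range J, ENNReal.ofReal (2 ^ (j + 1) * a) *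
        (Ioi (2 ^ j * a)).indicator (fun _ => 1) x + big (2 ^ J * a) x := by
  induction J with
  | zero => simp
  | succ J ih =>
    rw [Finset.sum_range_succ, add_assoc]
    refine ih.trans (add_le_add le_rfl ?_)
    by_cases h1 : 2 ^ J * a < x
    · rw [Set.indicator_of_mem (show x ∈ Ioi (2 ^ J * a) from h1), mul_one]
      unfold big
      rw [if_pos h1]
      by_cases h2 : 2 ^ (J + 1) * a < x
      · rw [if_pos h2]; exact le_add_self
      · rw [if_neg h2, add_zero]
        exact ENNReal.ofReal_le_ofReal (not_lt.1 h2)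
    · unfold big
      rw [if_neg h1]
      exact zero_le

lemma big_sq {a : ℝ} (ha : 0 < a) (x : ℝ) : big a x ≤ ENNReal.ofReal (1 / a) * ENNReal.ofReal (x ^ 2) := by
  unfold big
  split_ifs with h
  · rw [← ENNReal.ofReal_mul (by positivity)]
    apply ENNReal.ofReal_le_ofReal
    rw [one_div, inv_mul_eq_div, le_div_iff₀ ha, sq]
    exact mul_le_mul_of_nonneg_left h.le (by linarith)
  · exact zero_le

lemma mz_meas {σ : ℝ} (hσ : σ < 1 / 2) : Continuous (mz σ) := by
  unfold mz pw
  refine continuous_norm.comp (continuous_iff_continuousAt.2 fun t => ?_)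
  have h1 : (1 / 2 + (σ : ℂ) + (t : ℂ) * Complex.I) ≠ 1 := by
    intro h
    have := congrArg Complex.re h
    simp at this
    linarith
  have h2 : ContinuousAt riemannZeta (1 / 2 + (σ : ℂ) + (t : ℂ) * Complex.I) :=
    (differentiableAt_riemannZeta h1).continuousAt
  exact ContinuousAt.comp (f := fun t : ℝ => (1 / 2 + (σ : ℂ) + (t : ℂ) * Complex.I)) h2 (by fun_prop)

theorem layers {σ a X1 X2 : ℝ} (hσ : σ < 1 / 2) (ha : 0 < a) (hX : X1 ≤ X2) (J : ℕ) :
    ∫⁻ t in Ioo X1 X2, big a (mz σ t) ≤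
      ∑ j ∈ Finset.range J, ENNReal.ofReal (2 ^ (j + 1) * a) * volume {t : ℝ | X1 < t ∧ t < X2 ∧ 2 ^ j * a < mz σ t} +
        ENNReal.ofReal (1 / (2 ^ J * a) * ∫ t in X1..X2, mz σ t ^ 2) := by
  have hc := mz_meas hσ
  have hI : ∀ j : ℕ, Measurable fun t : ℝ => (Ioi (2 ^ j * a)).indicator (fun _ => (1:ℝ≥0∞)) (mz σ t) := fun j =>
    (measurable_const.indicator measurableSet_Ioi).comp hc.measurable
  have hJ : ∀ j : ℕ, Measurable fun t : ℝ => ENNReal.ofReal (2 ^ (j + 1) * a) *
        (Ioi (2 ^ j * a)).indicator (fun _ => (1:ℝ≥0∞)) (mz σ t) := fun j => (hI j).const_mul _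
  have hK : Measurable fun t : ℝ => ENNReal.ofReal (mz σ t ^ 2) := (hc.pow 2).measurable.ennreal_ofReal
  calc ∫⁻ t in Ioo X1 X2, big a (mz σ t) ≤ ∫⁻ t in Ioo X1 X2,
        (∑ j ∈ Finset.range J, ENNReal.ofReal (2 ^ (j + 1) * a) *
        (Ioi (2 ^ j * a)).indicator (fun _ => 1) (mz σ t) +
          ENNReal.ofReal (1 / (2 ^ J * a)) * ENNReal.ofReal (mz σ t ^ 2)) :=
        lintegral_mono fun t => (big_layers a _ J).trans (add_le_add le_rfl (big_sq (by positivity) _))
    _ = (∑ j ∈ Finset.range J, ∫⁻ t in Ioo X1 X2, ENNReal.ofReal (2 ^ (j + 1) * a) *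
        (Ioi (2 ^ j * a)).indicator (fun _ => 1) (mz σ t)) +
        ∫⁻ t in Ioo X1 X2, ENNReal.ofReal (1 / (2 ^ J * a)) * ENNReal.ofReal (mz σ t ^ 2) := by
        rw [lintegral_add_left (Finset.measurable_sum _ fun j _ => hJ j),
          lintegral_finsetSum _ fun j _ => hJ j]
    _ ≤ _ := by
        refine add_le_add (Finset.sum_le_sum fun j _ => ?_) ?_
        · rw [lintegral_const_mul _ (hI j)]
          refine mul_le_mul_right ?_ _
          have e1 : ∀ t : ℝ, (Ioi (2 ^ j * a)).indicator (fun _ => (1:ℝ≥0∞)) (mz σ t) =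
              ({t : ℝ | 2 ^ j * a < mz σ t}).indicator (fun _ => 1) t := by
            intro t
            by_cases h : 2 ^ j * a < mz σ t
            · rw [Set.indicator_of_mem (show mz σ t ∈ Ioi (2 ^ j * a) from h),
                Set.indicator_of_mem (show t ∈ {t : ℝ | 2 ^ j * a < mz σ t} from h)]
            · rw [Set.indicator_of_notMem (fun h' : mz σ t ∈ Ioi (2 ^ j * a) => h h'),
                Set.indicator_of_notMem (fun h' : t ∈ {t : ℝ | 2 ^ j * a < mz σ t} => h h')]
          simp_rw [e1]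
          have hms : MeasurableSet {t : ℝ | 2 ^ j * a < mz σ t} := measurableSet_lt measurable_const hc.measurable
          rw [lintegral_indicator hms, setLIntegral_const, one_mul, Measure.restrict_apply' measurableSet_Ioo]
          exact measure_mono fun t ht => ⟨ht.2.1, ht.2.2, ht.1⟩
        · rw [lintegral_const_mul _ hK,
            ENNReal.ofReal_mul (by positivity)]
          refine mul_le_mul_right ?_ _
          have hc2 : Continuous fun t : ℝ => mz σ t ^ 2 := hc.pow 2
          rw [intervalIntegral.integral_of_le hX, integral_Ioc_eq_integral_Ioo,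
            ofReal_integral_eq_lintegral_ofReal
            ((hc2.integrableOn_Icc (a := X1) (b := X2)).mono_set Ioo_subset_Icc_self)
            (Filter.Eventually.of_forall fun v => by positivity)]

end Pool.Agent.V5helper16.EG.Cell
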