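import Pool.Agent.V5helper51.EG.Stm
import Pool.Agent.N748.HM.ZM3

set_option autoImplicit false

/-!
# EG/Z2: the mean square of zeta near the critical line (helper16)
-/

namespace Pool.Agent.V5helper16.EG.Z2

open Finset Filter MeasureTheory MonoidAlgebra Topology Complex
open Pool.Agent.N748.GC
open Pool.Agent.N748.HM
open Pool.Agent.Y755
open Pool.Agent.N748.MG (Ev pw)

/-- the mean square of zeta on the lines near `1/2 + δ` -/
def S_Z2 : Prop := Ev fun X δ => ∀ σ : ℝ, δ / 2 ≤ σ → σ ≤ 3 * δ / 2 →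
  ∫ t in (X ^ ((9:ℝ) / 10))..(2 * X), Pool.Agent.N748.MG.mz σ t ^ 2 ≤ X * (20 / δ)

lemma supp_sub {M : ℝ} {h : P1} (hb : Bd1 M h) : h.coeff.support ⊆ Icc 1 ⌊M⌋₊ := by
  intro n hn
  rw [mem_Icc]
  exact ⟨Nat.pos_of_ne_zero (hb n hn).1, Nat.le_floor (hb n hn).2⟩

lemma zN_coeff (N n : ℕ) : |(zN N).coeff n| ≤ 1 := by
  classical
  unfold zN
  rw [coeff_sum, Finsupp.finsetSum_apply]
  have e1 : ∀ m ∈ Icc 1 N, (single m 1 : P1).coeff n = if n = m then 1 else 0 := by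
    intro m _
    rw [coeff_single, Finsupp.single_apply]
    by_cases h : m = n
    · rw [if_pos h, if_pos h.symm]
    · rw [if_neg h, if_neg (Ne.symm h)]
  rw [sum_congr rfl e1, sum_ite_eq]
  split_ifs <;> simp

lemma Dt1_coeff (N n : ℕ) : |(Dt N 1).coeff n| ≤ 1 := by
  unfold Dt
  rw [trn_coeff]
  split_ifs
  · rw [mul_one]; exact zN_coeff N n
  · rw [abs_zero]; exact zero_le_one

/-- one term of the sum -/
lemma term {s : ℝ} (hs : 0 < s) {n : ℕ} (hn : 2 ≤ n) :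
    s * (n:ℝ) ^ (-(1 + s)) ≤ ((n:ℝ) - 1) ^ (-s) - (n:ℝ) ^ (-s) := by
  have hn2 : (2:ℝ) ≤ n := by exact_mod_cast hn
  have hn0 : (0:ℝ) < n := by linarith
  have hn1 : (0:ℝ) < (n:ℝ) - 1 := by linarith
  have hx : (0:ℝ) < 1 - 1 / n := by
    rw [sub_pos, div_lt_one hn0]; linarith
  have e1 : (n:ℝ) - 1 = n * (1 - 1 / n) := by field_simp
  have e2 : ((n:ℝ) - 1) ^ (-s) = (n:ℝ) ^ (-s) * (1 - 1 / n) ^ (-s) := by
    rw [e1, Real.mul_rpow hn0.le hx.le]
  have h1 : 1 + s / n ≤ (1 - 1 / (n:ℝ)) ^ (-s) := by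
    rw [Real.rpow_def_of_pos hx]
    have h2 : Real.log (1 - 1 / (n:ℝ)) ≤ -(1 / n) := by
      have := Real.log_le_sub_one_of_pos hx
      linarith
    have h3 := Real.add_one_le_exp (Real.log (1 - 1 / (n:ℝ)) * -s)
    have h4 : s / n ≤ Real.log (1 - 1 / (n:ℝ)) * -s := by
      have := mul_le_mul_of_nonneg_left h2 hs.le
      have e : s * -(1 / (n:ℝ)) = -(s / n) := by ring
      rw [e] at this
      linarith
    linarith
  have e3 : (n:ℝ) ^ (-(1 + s)) = (n:ℝ) ^ (-s) / n := by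
    rw [show -(1 + s) = -s - 1 by ring, Real.rpow_sub_one hn0.ne']
  have h5 : 0 ≤ (n:ℝ) ^ (-s) := by positivity
  have h6 := mul_le_mul_of_nonneg_left h1 h5
  rw [e2, e3]
  have e4 : s * ((n:ℝ) ^ (-s) / n) = (n:ℝ) ^ (-s) * (1 + s / n) - (n:ℝ) ^ (-s) := by ring
  rw [e4]
  linarith

lemma sum_le {s : ℝ} (hs : 0 < s) (N : ℕ) (hN : 1 ≤ N) :
    ∑ n ∈ Icc 1 N, (n:ℝ) ^ (-(1 + s)) ≤ 1 + 1 / s := by
  have key : s * ∑ n ∈ Icc 1 N, (n:ℝ) ^ (-(1 + s)) ≤ s + 1 - (N:ℝ) ^ (-s) := by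
    induction N, hN using Nat.le_induction with
    | base => simp
    | succ n hn ih =>
      rw [sum_Icc_succ_top (by omega), mul_add]
      have h1 := term hs (n := n + 1) (by omega)
      have e1 : ((n + 1 : ℕ):ℝ) - 1 = n := by push_cast; ring
      rw [e1] at h1
      linarith
  have h2 : 0 ≤ (N:ℝ) ^ (-s) := by positivity
  have h3 : s * ∑ n ∈ Icc 1 N, (n:ℝ) ^ (-(1 + s)) ≤ s * (1 + 1 / s) := by
    have e : s * (1 + 1 / s) = s + 1 := by field_simp
    rw [e]; linarith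
  exact le_of_mul_le_mul_left h3 hs

lemma ip_le {δ : ℝ} (hδ : 0 < δ) {N : ℕ} (hN : 1 ≤ N) {h : P1} (hb : Bd1 N h)
    (hh : ∀ n, |h.coeff n| ≤ 1) : ip δ h h ≤ 1 + 1 / (2 * δ) := by
  have hs := supp_sub hb
  rw [Nat.floor_natCast] at hs
  rw [ip_eq δ h h hs]
  refine le_trans (sum_le_sum fun n hn => ?_) (sum_le (s := 2 * δ) (by positivity) N hN)
  rw [mem_Icc] at hn
  have hn0 : (0:ℝ) < n := by exact_mod_cast hn.1
  unfold wδ
  have h1 : h.coeff n * h.coeff n ≤ 1 := by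
    have h2 := hh n
    rw [← abs_mul_abs_self]
    have h3 := abs_nonneg (h.coeff n)
    nlinarith
  have e1 : (n:ℝ) ^ (-(1 + 2 * δ)) = (n:ℝ) ^ (-(2 * δ)) * (1 / (n:ℝ)) := by
    rw [show -(1 + 2 * δ) = -(2 * δ) - 1 by ring, Real.rpow_sub_one hn0.ne', div_eq_mul_one_div]
  rw [e1]
  have h2 : 0 ≤ (n:ℝ) ^ (-(2 * δ)) * (1 / (n:ℝ)) := by positivity
  calc h.coeff n * h.coeff n * ((n:ℝ) ^ (-(2 * δ)) * (1 / (n:ℝ))) ≤ 1 * ((n:ℝ) ^ (-(2 * δ)) * (1 / (n:ℝ))) :=
        mul_le_mul_of_nonneg_right h1 h2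
    _ = _ := one_mul _

theorem main (h1 : S_ZM1) : S_Z2 := by
  obtain ⟨C, h1⟩ := h1
  obtain ⟨lam, hlam⟩ := Pool.Agent.N748.HM.ZM3.asym C 1 one_pos
  refine ⟨max lam 1, 1 / 24, lt_max_of_lt_right one_pos, by norm_num, by norm_num, ?_⟩
  have h4 : Tendsto (fun X : ℝ => 4 * X) atTop atTop := tendsto_id.const_mul_atTop (by norm_num)
  filter_upwards [hlam, h4.eventually h1, h4.eventually windows_ev, eventually_ge_atTop (10 ^ 10),
    h4.eventually (rpow_ev (p := 1 / 4) (q := 1) (by norm_num) 60000),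
    h4.eventually (rpow_ev (p := 3 / 8) (q := 1 / 2) (by norm_num) 16),
    rpow_ev (p := 4 / 5) (q := 9 / 10) (by norm_num) (4 ^ ((4:ℝ) / 5)),
    (tendsto_rpow_atTop (y := 1 / 8) (by norm_num)).comp h4 |>.eventually_ge_atTop 2] with
    X g1 g2 g3 g4 g5 g6 g7 g9 δ hδ0 hδ hl δ' hδ'1 hδ'2
  simp only [Function.comp_apply] at g9
  obtain ⟨T, hT⟩ : ∃ T, T = 4 * X := ⟨_, rfl⟩
  rw [← hT] at g2 g3 g5 g6 g9
  have hX0 : 0 < X := by linarith
  have hX1 : 1 ≤ X := by linarith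
  have hT0 : 0 < T := by linarith
  have hT1 : 1 ≤ T := by linarith
  have h24 : (24:ℝ) ≤ 1 / δ := by rw [le_div_iff₀ hδ0]; linarith
  have hll : 1 ≤ Real.log (1 / δ) := by
    rw [Real.le_log_iff_exp_le (by positivity)]
    linarith [Real.exp_one_lt_d9]
  have hl' : lam * Real.log (1 / δ) ≤ δ * Real.log X := by
    refine le_trans ?_ hl
    have e1 : lam * Real.log (1 / δ) ≤ max lam 1 * Real.log (1 / δ) :=
      mul_le_mul_of_nonneg_right (le_max_left _ _) (by linarith)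
    refine e1.trans ?_
    have e2 : Real.log (1 / δ) ≤ Real.log (1 / δ) ^ 2 := by nlinarith
    exact mul_le_mul_of_nonneg_left e2 (le_trans zero_le_one (le_max_right _ _))
  obtain ⟨k1, k2, k3⟩ := g1 δ hδ0 hδ hl'
  rw [Real.rpow_one] at k1 k2
  rw [← hT] at k1
  obtain ⟨w1, w2, w3⟩ := g3
  set f : P1 := 1 with hf
  set N := NT T with hN
  have hNdef : N = ⌊T ^ ((1:ℝ) / 8)⌋₊ := rfl
  have hN1 : 1 ≤ N := by
    rw [hNdef]
    exact Nat.le_floor (by push_cast; linarith)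
  have hN1r : (1:ℝ) ≤ N := by exact_mod_cast hN1
  have hN8 : (N:ℝ) ≤ T ^ ((1:ℝ) / 8) := NT_le hT0.le
  have hcoef : ∀ n, |f.coeff n| ≤ 1 := by
    intro n
    have e1 := zN_coeff 1 n
    have e2 : zN 1 = 1 := by
      unfold zN
      rw [Icc_self, sum_singleton, MonoidAlgebra.one_def]
    rw [e2] at e1
    exact e1
  have hfB : Bd1 (T ^ ((1:ℝ) / 50)) f := Bd1.one.mono (Real.one_le_rpow hT1 (by norm_num))
  have hl1 : l1' f = 1 := l1'_one
  -- the mean square on the critical line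
  have hline := g2 f hfB hcoef N hN8
  have hδ'0 : 0 < δ' := by linarith
  have hδ'16 : δ' ≤ 1 / 16 := by linarith
  have hlogT : Real.log X ≤ Real.log T := Real.log_le_log hX0 (by linarith)
  have hlogX0 : 0 < Real.log X := Real.log_pos (by linarith)
  have hL : 1 / Real.log T ≤ δ' := by
    rw [div_le_iff₀ (by linarith)]
    nlinarith
  have hoff := hp_one hN1 hfB (by linarith) hL hδ'16 w1 w2 w3
  have g5' : 30000 * ((1 + (N:ℝ) ^ 2) * l1' f ^ 2) / T ≤ 1 := by
    have q1 : (1 + (N:ℝ) ^ 2) ≤ 2 * T ^ ((1:ℝ) / 4) := by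
      have q2 := NT_pow hT1 2
      rw [← hN] at q2
      have q3 : T ^ (((2:ℕ):ℝ) / 8) = T ^ ((1:ℝ) / 4) := by congr 1; norm_num
      rw [q3] at q2
      have q4 : 1 ≤ T ^ ((1:ℝ) / 4) := Real.one_le_rpow hT1 (by norm_num)
      linarith
    rw [div_le_one hT0, hl1, one_pow, mul_one]
    rw [Real.rpow_one] at g5
    linarith
  have hlogT1 : 1 ≤ Real.log T := by
    have : Real.exp 1 ≤ T := by linarith [Real.exp_one_lt_d9]
    rwa [Real.le_log_iff_exp_le hT0]
  have hlogC : 1 ≤ Real.log T ^ C := one_le_pow₀ hlogT1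
  have hNδ : (N:ℝ) ^ (-(2 * δ')) ≤ 2 * X ^ (-(δ / 8)) := by
    rw [hNdef]
    refine (ZM3.floor_rpow g9 (by linarith) (by linarith)).trans ?_
    apply mul_le_mul_of_nonneg_left _ (by norm_num)
    rw [← Real.rpow_mul hT0.le]
    have e1 : T ^ ((1:ℝ) / 8 * -(2 * δ')) ≤ X ^ ((1:ℝ) / 8 * -(2 * δ')) :=
      Real.rpow_le_rpow_of_nonpos hX0 (by linarith) (by nlinarith)
    refine e1.trans (Real.rpow_le_rpow_of_exponent_le hX1 ?_)
    linarith
  have hDB : Bd1 N (Dt N f) := Dt_Bd hfB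
  have hqc : Continuous fun t : ℝ => qd (fun s => es s f) (fun s => es s (Dt N f)) (1 / 2 + δ') t :=
    qd_cont (es_diff hfB) (es_diff hDB) (by linarith)
  have s2 : X ^ ((9:ℝ) / 10) ≤ 2 * X := by
    have : X ^ ((9:ℝ) / 10) ≤ X ^ (1:ℝ) := Real.rpow_le_rpow_of_exponent_le hX1 (by norm_num)
    rw [Real.rpow_one] at this
    linarith
  have hI1 : ∫ t in (X ^ ((9:ℝ) / 10))..(2 * X), qd (fun s => es s f) (fun s => es s (Dt N f)) (1 / 2 + δ') t ≤
      X * δ / 8 := by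
    have s1 : T ^ ((4:ℝ) / 5) ≤ X ^ ((9:ℝ) / 10) := by
      rw [hT, Real.mul_rpow (by norm_num) hX0.le]
      exact g7
    have s3 : 2 * X ≤ T / 2 := by linarith
    have s4 := intervalIntegral.integral_mono_interval (μ := volume) s1 s2 s3
      (Filter.Eventually.of_forall fun t => qd_nonneg (fun s => es s f) (fun s => es s (Dt N f)) (1 / 2 + δ') t)
      (hqc.intervalIntegrable _ _)
    refine s4.trans (hoff.trans ?_)
    have s5 : 0 ≤ X ^ (-(δ / 8)) := by positivity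
    calc _ ≤ 32 * (2 * X ^ (-(δ / 8))) * (T * Real.log T ^ C + 1) := by
          apply mul_le_mul
          · exact mul_le_mul_of_nonneg_left hNδ (by norm_num)
          · exact add_le_add hline g5'
          · apply add_nonneg
            · exact intervalIntegral.integral_nonneg (by linarith [Real.rpow_nonneg hT0.le ((1:ℝ) / 4)])
                fun x _ => qd_nonneg _ _ _ _
            · positivity
          · positivity
      _ ≤ 32 * (2 * X ^ (-(δ / 8))) * (2 * (T * Real.log T ^ C)) := by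
          apply mul_le_mul_of_nonneg_left _ (by positivity)
          have : 1 ≤ T * Real.log T ^ C := by
            calc (1:ℝ) = 1 * 1 := by norm_num
              _ ≤ T * Real.log T ^ C := mul_le_mul hT1 hlogC (by norm_num) hT0.le
          linarith
      _ = X * (4096 * X ^ (-(δ / 8)) * Real.log T ^ C) / 8 := by rw [hT]; ring
      _ ≤ X * δ / 8 := by
          apply div_le_div_of_nonneg_right _ (by norm_num)
          exact mul_le_mul_of_nonneg_left k1 hX0.le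
  -- the mean value theorem
  set g : P1 := Dt N f with hg
  have hgl : l1' g ≤ N := by
    have := Dt_l1 N f
    rw [hl1, mul_one] at this
    exact this
  have hgc : Continuous fun t : ℝ => ‖es (1 / 2 + δ' + t * Complex.I) g‖ ^ 2 := es_cont0 δ' hDB
  have hI2 : ∫ t in (X ^ ((9:ℝ) / 10))..(2 * X), ‖es (1 / 2 + δ' + t * Complex.I) g‖ ^ 2 ≤
      2 * X * (2 / δ) + X / 8 := by
    have s0 : 0 ≤ X ^ ((9:ℝ) / 10) := by positivity
    have s4 := intervalIntegral.integral_mono_interval (μ := volume) s0 s2 le_rfl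
      (Filter.Eventually.of_forall fun t : ℝ => (by positivity : 0 ≤ ‖es (1 / 2 + δ' + t * Complex.I) g‖ ^ 2))
      (hgc.intervalIntegrable _ _)
    refine s4.trans ?_
    have s5 := (abs_le.mp (mvt hδ'0.le hDB (2 * X))).2
    have s6 : ip δ' g g ≤ 2 / δ := by
      refine (ip_le hδ'0 hN1 hDB (Dt1_coeff N)).trans ?_
      have e1 : 1 / (2 * δ') ≤ 1 / δ := one_div_le_one_div_of_le hδ0 (by linarith)
      have e2 : 2 / δ = 1 / δ + 1 / δ := by ring
      rw [e2]
      linarith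
    have s7 : 2 * (N:ℝ) * l1' g ^ 2 ≤ X / 8 := by
      have r1 : l1' g ^ 2 ≤ (N:ℝ) ^ 2 := pow_le_pow_left₀ (l1'_nonneg g) hgl 2
      have r2 := NT_pow hT1 3
      rw [← hN] at r2
      have r3 : T ^ (((3:ℕ):ℝ) / 8) = T ^ ((3:ℝ) / 8) := by congr 1
      rw [r3] at r2
      have r5 : T ^ ((1:ℝ) / 2) = 2 * X ^ ((1:ℝ) / 2) := by
        rw [hT, Real.mul_rpow (by norm_num) hX0.le]
        congr 1
        rw [show (4:ℝ) = 2 ^ (2:ℝ) by norm_num, ← Real.rpow_mul (by norm_num)]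
        norm_num
      have r6 : X ^ ((1:ℝ) / 2) ≤ X / 2 := by
        have e1 : X * X ^ (-(1 / 2 : ℝ)) = X ^ ((1:ℝ) / 2) := by
          nth_rewrite 1 [← Real.rpow_one X]
          rw [← Real.rpow_add hX0]
          norm_num
        rw [← e1]
        nlinarith
      calc 2 * (N:ℝ) * l1' g ^ 2 ≤ 2 * (N:ℝ) * (N:ℝ) ^ 2 := by gcongr
        _ = 2 * (N:ℝ) ^ 3 := by ring
        _ ≤ 2 * T ^ ((3:ℝ) / 8) := by linarith
        _ ≤ T ^ ((1:ℝ) / 2) / 8 := by linarith
        _ ≤ X / 8 := by rw [r5]; linarith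
    have s8 : 2 * X * ip δ' g g ≤ 2 * X * (2 / δ) := mul_le_mul_of_nonneg_left s6 (by positivity)
    linarith
  -- conclusion
  have hFc : Continuous fun t : ℝ => qd (fun s => es s f) (fun _ => (0:ℂ)) (1 / 2 + δ') t :=
    qd_cont (es_diff hfB) (differentiable_const _) (by linarith)
  calc ∫ t in (X ^ ((9:ℝ) / 10))..(2 * X), Pool.Agent.N748.MG.mz δ' t ^ 2
      = ∫ t in (X ^ ((9:ℝ) / 10))..(2 * X), qd (fun s => es s f) (fun _ => (0:ℂ)) (1 / 2 + δ') t := by
        refine intervalIntegral.integral_congr fun t _ => ?_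
        simp only [Pool.Agent.N748.MG.mz, pw, qd, hf, map_one, mul_one, sub_zero]
        push_cast
        rfl
    _ ≤ ∫ t in (X ^ ((9:ℝ) / 10))..(2 * X), (2 * qd (fun s => es s f) (fun s => es s (Dt N f)) (1 / 2 + δ') t +
          2 * ‖es (1 / 2 + δ' + t * Complex.I) g‖ ^ 2) := by
        refine intervalIntegral.integral_mono_on s2 (hFc.intervalIntegrable _ _)
          (((continuous_const.mul hqc).add (continuous_const.mul hgc)).intervalIntegrable _ _) fun t _ => ?_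
        unfold qd
        have e0 : (((1 / 2 + δ' : ℝ) : ℂ) + t * Complex.I) = 1 / 2 + δ' + t * I := by push_cast; ring
        rw [e0]
        have e2 := norm_add_le (riemannZeta (1 / 2 + δ' + t * I) * es (1 / 2 + δ' + t * I) f -
          es (1 / 2 + δ' + t * I) (Dt N f)) (es (1 / 2 + δ' + t * I) (Dt N f))
        rw [sub_add_cancel] at e2
        have e3 := pow_le_pow_left₀ (norm_nonneg _) e2 2
        rw [sub_zero]
        nlinarith [sq_nonneg (‖riemannZeta (1 / 2 + δ' + t * I) * es (1 / 2 + δ' + t * I) f -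
          es (1 / 2 + δ' + t * I) (Dt N f)‖ - ‖es (1 / 2 + δ' + t * I) (Dt N f)‖)]
    _ = 2 * (∫ t in (X ^ ((9:ℝ) / 10))..(2 * X), qd (fun s => es s f) (fun s => es s (Dt N f)) (1 / 2 + δ') t) +
          2 * ∫ t in (X ^ ((9:ℝ) / 10))..(2 * X), ‖es (1 / 2 + δ' + t * Complex.I) g‖ ^ 2 := by
        rw [intervalIntegral.integral_add ((hqc.intervalIntegrable _ _).const_mul 2)
          ((hgc.intervalIntegrable _ _).const_mul 2), intervalIntegral.integral_const_mul,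
          intervalIntegral.integral_const_mul]
    _ ≤ 2 * (X * δ / 8) + 2 * (2 * X * (2 / δ) + X / 8) := by linarith
    _ ≤ X * (20 / δ) := by
        have e1 : 1 ≤ 1 / δ := by linarith
        have e2 : X * (20 / δ) = X * 20 * (1 / δ) := by ring
        have e3 : 2 * (2 * X * (2 / δ) + X / 8) = X * 8 * (1 / δ) + X / 4 := by ring
        rw [e2, e3]
        have e4 : X * 1 ≤ X * (1 / δ) := mul_le_mul_of_nonneg_left e1 hX0.le
        have e5 : X * δ ≤ X * 1 := mul_le_mul_of_nonneg_left (by linarith) hX0.le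
        linarith

end Pool.Agent.V5helper16.EG.Z2
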