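import Pool.Agent.V5helper16.EG.Cell
import Pool.Agent.V5helper16.EG.Z2

set_option autoImplicit false

/-!
# EG/SUPC: the supremum over short cells (helper16)
-/

namespace Pool.Agent.V5helper16.EG.SUPC

open MeasureTheory Set Filter Topology
open scoped ENNReal Real
open Pool.Agent.N748.MG (mz pw Ev aC S_CON)
open Pool.Agent.N748.HM (S_ZM1)
open Pool.Agent.V5helper51.EG
open Pool.Agent.V5helper16.EG.Z2 (S_Z2)

/-! ### the density -/

lemma nu_nonneg (hC : S_CON) {V δ c : ℝ} (hV : 0 < V) (hδ : 0 < δ) (hc : 0 < c) : 0 ≤ nu V δ c := by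
  obtain ⟨r, hr, hr2⟩ := hC.2 V
  have h : (aC V).re = r := by rw [hr2, Complex.ofReal_re]
  unfold nu
  rw [h]
  positivity

/-- the dependence on the level -/
lemma nu_level {V δ c b : ℝ} (hb : 0 < b) (hc : 0 < c) : nu V δ (b * c) = b ^ (-(2 * V)) * nu V δ c := by
  unfold nu
  rw [Real.mul_rpow hb.le hc.le]
  ring

/-- the dependence on the distance -/
lemma nu_dist (hC : S_CON) {V δ σ c : ℝ} (hV : 0 < V) (hδ : 0 < δ) (hδ1 : δ ≤ 1 / 16) (h1 : δ / 2 ≤ σ)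
    (h2 : σ ≤ 3 * δ / 2) (hc : 0 < c) : nu V σ c ≤ 2 ^ (V ^ 2) * 2 * nu V δ c := by
  obtain ⟨r, hr, hr2⟩ := hC.2 V
  have h : (aC V).re = r := by rw [hr2, Complex.ofReal_re]
  have hσ : 0 < σ := by linarith
  have hL : 0 < Real.log (1 / (2 * δ)) := Real.log_pos (by rw [lt_div_iff₀ (by positivity)]; linarith)
  have hLσ : Real.log (1 / (2 * δ)) / 4 ≤ Real.log (1 / (2 * σ)) := by
    have e1 : Real.log (1 / (3 * δ)) ≤ Real.log (1 / (2 * σ)) :=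
      Real.log_le_log (by positivity) (one_div_le_one_div_of_le (by positivity) (by linarith))
    have e2 : Real.log (1 / (2 * δ)) ≤ 2 * Real.log (1 / (3 * δ)) := by
      have e3 : 2 * Real.log (1 / (3 * δ)) = Real.log ((1 / (3 * δ)) ^ 2) := by
        rw [Real.log_pow]; push_cast; ring
      rw [e3]
      refine Real.log_le_log (by positivity) ?_
      rw [div_pow, one_pow, div_le_div_iff₀ (by positivity) (by positivity)]
      nlinarith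
    linarith
  have hs1 : Real.sqrt (π * Real.log (1 / (2 * δ))) ≤ 2 * Real.sqrt (π * Real.log (1 / (2 * σ))) := by
    have e1 : π * Real.log (1 / (2 * δ)) ≤ 2 ^ 2 * (π * Real.log (1 / (2 * σ))) := by
      have := mul_le_mul_of_nonneg_left hLσ Real.pi_pos.le
      linarith
    calc Real.sqrt (π * Real.log (1 / (2 * δ))) ≤ Real.sqrt (2 ^ 2 * (π * Real.log (1 / (2 * σ)))) :=
          Real.sqrt_le_sqrt e1
      _ = 2 * Real.sqrt (π * Real.log (1 / (2 * σ))) := by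
          rw [Real.sqrt_mul (by norm_num), Real.sqrt_sq (by norm_num)]
  have hs0 : 0 < Real.sqrt (π * Real.log (1 / (2 * δ))) := Real.sqrt_pos.2 (by positivity)
  have hsσ : 0 < Real.sqrt (π * Real.log (1 / (2 * σ))) := by linarith
  have hp : (2 * σ) ^ (-V ^ 2) ≤ 2 ^ (V ^ 2) * (2 * δ) ^ (-V ^ 2) := by
    have e1 : (2 * σ) ^ (-V ^ 2) ≤ δ ^ (-V ^ 2) :=
      Real.rpow_le_rpow_of_nonpos hδ (by linarith) (by nlinarith)
    have e2 : δ ^ (-V ^ 2) = 2 ^ (V ^ 2) * (2 * δ) ^ (-V ^ 2) := by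
      rw [Real.mul_rpow (by norm_num) hδ.le, ← mul_assoc, ← Real.rpow_add (by norm_num), add_neg_cancel,
        Real.rpow_zero, one_mul]
    rwa [e2] at e1
  unfold nu
  rw [h]
  rw [div_le_iff₀ (by positivity)]
  have hcV : 0 < c ^ (-(2 * V)) := Real.rpow_pos_of_pos hc _
  calc r * c ^ (-(2 * V)) * (2 * σ) ^ (-V ^ 2) ≤ r * c ^ (-(2 * V)) * (2 ^ (V ^ 2) * (2 * δ) ^ (-V ^ 2)) :=
        mul_le_mul_of_nonneg_left hp (by positivity)
    _ = 2 ^ (V ^ 2) * (r * c ^ (-(2 * V)) * (2 * δ) ^ (-V ^ 2) / (2 * V * Real.sqrt (π * Real.log (1 / (2 * δ))))) *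
        (2 * V * Real.sqrt (π * Real.log (1 / (2 * δ)))) := by
        field_simp
    _ ≤ 2 ^ (V ^ 2) * (r * c ^ (-(2 * V)) * (2 * δ) ^ (-V ^ 2) / (2 * V * Real.sqrt (π * Real.log (1 / (2 * δ))))) *
        (2 * V * (2 * Real.sqrt (π * Real.log (1 / (2 * σ))))) := by
        refine mul_le_mul_of_nonneg_left ?_ (by positivity)
        exact mul_le_mul_of_nonneg_left hs1 (by positivity)
    _ = _ := by ring

/-! ### the sum over the layers -/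

lemma geo (J : ℕ) : ∑ j ∈ Finset.range J, (1 / 2 : ℝ) ^ j ≤ 2 := by
  have h := geom_sum_eq (show (1 / 2 : ℝ) ≠ 1 by norm_num) J
  rw [h]
  have : (0:ℝ) ≤ (1 / 2 : ℝ) ^ J := by positivity
  rw [div_le_iff_of_neg (by norm_num)]
  linarith

lemma geo2 (J : ℕ) : ∑ j ∈ Finset.range J, (2:ℝ) ^ (j + 1) ≤ 2 ^ (J + 1) := by
  induction J with
  | zero => norm_num
  | succ J ih =>
    rw [Finset.sum_range_succ]
    have : (2:ℝ) ^ (J + 1 + 1) = 2 * 2 ^ (J + 1) := by ring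
    linarith

lemma layer_sum {V C D1 σ X a n : ℝ} (hV : 1 ≤ V) (hC : 0 < C) (hX : 0 < X) (ha : 0 < a) (hσ : 0 < σ)
    (hn : 0 ≤ n) (J : ℕ) :
    ∑ j ∈ Finset.range J, (2:ℝ) ^ (j + 1) * a * (2 * X * (σ ^ D1 + C * (((2:ℝ) ^ j) ^ (-(2 * V)) * n))) ≤
      2 * X * a * (2 ^ (J + 1) * σ ^ D1 + 4 * C * n) := by
  have h1 : ∀ j : ℕ, (2:ℝ) ^ (j + 1) * ((2:ℝ) ^ j) ^ (-(2 * V)) ≤ 2 * (1 / 2) ^ j := by
    intro j
    have e0 : (1:ℝ) ≤ 2 ^ j := one_le_pow₀ (by norm_num)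
    have e1 : ((2:ℝ) ^ j) ^ (-(2 * V)) ≤ ((2:ℝ) ^ j) ^ (-(2:ℝ)) :=
      Real.rpow_le_rpow_of_exponent_le e0 (by linarith)
    have e2 : ((2:ℝ) ^ j) ^ (-(2:ℝ)) = (1 / 2) ^ j * (1 / 2) ^ j := by
      rw [Real.rpow_neg (by positivity), Real.rpow_two, one_div, inv_pow, sq, mul_inv]
    have e3 : (2:ℝ) ^ (j + 1) = 2 * 2 ^ j := by ring
    have e4 : (2:ℝ) ^ j * (1 / 2) ^ j = 1 := by rw [← mul_pow]; norm_num
    calc (2:ℝ) ^ (j + 1) * ((2:ℝ) ^ j) ^ (-(2 * V)) ≤ (2:ℝ) ^ (j + 1) * ((2:ℝ) ^ j) ^ (-(2:ℝ)) :=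
          mul_le_mul_of_nonneg_left e1 (by positivity)
      _ = 2 * ((2:ℝ) ^ j * (1 / 2) ^ j) * (1 / 2) ^ j := by rw [e2, e3]; ring
      _ = 2 * (1 / 2) ^ j := by rw [e4, mul_one]
  have h2 : ∀ j ∈ Finset.range J, (2:ℝ) ^ (j + 1) * a * (2 * X * (σ ^ D1 + C * (((2:ℝ) ^ j) ^ (-(2 * V)) * n))) ≤
      2 * X * a * (σ ^ D1 * 2 ^ (j + 1) + 2 * (C * n) * (1 / 2) ^ j) := by
    intro j _
    have e1 := mul_le_mul_of_nonneg_left (h1 j) (show 0 ≤ C * n by positivity)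
    have e2 : (2:ℝ) ^ (j + 1) * a * (2 * X * (σ ^ D1 + C * (((2:ℝ) ^ j) ^ (-(2 * V)) * n))) =
        2 * X * a * (σ ^ D1 * 2 ^ (j + 1) + C * n * ((2:ℝ) ^ (j + 1) * ((2:ℝ) ^ j) ^ (-(2 * V)))) := by ring
    rw [e2]
    refine mul_le_mul_of_nonneg_left ?_ (by positivity)
    linarith
  refine (Finset.sum_le_sum h2).trans ?_
  rw [← Finset.mul_sum, Finset.sum_add_distrib, ← Finset.mul_sum, ← Finset.mul_sum]
  refine mul_le_mul_of_nonneg_left ?_ (by positivity)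
  have h3 : 0 ≤ σ ^ D1 := by positivity
  have h4 := mul_le_mul_of_nonneg_left (geo2 J) h3
  have h5 := mul_le_mul_of_nonneg_left (geo J) (show 0 ≤ 2 * (C * n) by positivity)
  linarith

/-! ### small lemmas -/

lemma small {K D : ℝ} (hK : 0 < K) : ∃ δ0 : ℝ, 0 < δ0 ∧ ∀ δ : ℝ, 0 < δ → δ ≤ δ0 → K * δ ^ (D + 1) ≤ δ ^ D / 4 := by
  refine ⟨1 / (4 * K), by positivity, fun δ h1 h2 => ?_⟩
  rw [Real.rpow_add_one h1.ne']
  have h3 : K * δ ≤ 1 / 4 := by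
    have := mul_le_mul_of_nonneg_left h2 hK.le
    have e : K * (1 / (4 * K)) = 1 / 4 := by field_simp
    rwa [e] at this
  have h4 : 0 ≤ δ ^ D := by positivity
  calc K * (δ ^ D * δ) = δ ^ D * (K * δ) := by ring
    _ ≤ δ ^ D * (1 / 4) := mul_le_mul_of_nonneg_left h3 h4
    _ = _ := by ring

/-- the condition on `δ` gives `X` much larger than any power of `1/δ` -/
lemma pow_le {D X δ lam : ℝ} (hD : 0 < D) (hδ : 0 < δ) (hδ1 : δ ≤ 1 / 16) (hX : 1 ≤ X)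
    (hlam : 10 * D + 50 ≤ lam) (h : lam * Real.log (1 / δ) ^ 2 ≤ δ * Real.log X) :
    X ^ ((9:ℝ) / 10) + 1 ≤ X * (δ ^ D / 4) := by
  have hX0 : 0 < X := by linarith
  have h16 : (16:ℝ) ≤ 1 / δ := by rw [le_div_iff₀ hδ]; linarith
  have hl : 1 ≤ Real.log (1 / δ) := by
    rw [Real.le_log_iff_exp_le (by positivity)]
    linarith [Real.exp_one_lt_d9]
  obtain ⟨l, hl0⟩ : ∃ l, l = Real.log (1 / δ) := ⟨_, rfl⟩
  rw [← hl0] at hl h
  have hLX : 0 ≤ Real.log X := Real.log_nonneg hX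
  have h1 : (10 * D + 50) * l ≤ Real.log X := by
    have e1 : (10 * D + 50) * l ≤ lam * l ^ 2 := by
      have e2 : l ≤ l ^ 2 := by nlinarith
      have e3 : (10 * D + 50) * l ≤ (10 * D + 50) * l ^ 2 := mul_le_mul_of_nonneg_left e2 (by positivity)
      have e4 : (10 * D + 50) * l ^ 2 ≤ lam * l ^ 2 := mul_le_mul_of_nonneg_right hlam (by positivity)
      linarith
    have e5 : δ * Real.log X ≤ Real.log X := by nlinarith
    linarith
  have hδD : δ ^ D = Real.exp (-(D * l)) := by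
    rw [Real.rpow_def_of_pos hδ, hl0, one_div, Real.log_inv]
    congr 1; ring
  have h2 : 8 * X ^ ((9:ℝ) / 10) ≤ X * δ ^ D := by
    have e1 : X = X ^ ((9:ℝ) / 10) * X ^ ((1:ℝ) / 10) := by
      rw [← Real.rpow_add hX0]; norm_num
    have e2 : 8 ≤ X ^ ((1:ℝ) / 10) * δ ^ D := by
      rw [hδD, Real.rpow_def_of_pos hX0, ← Real.exp_add]
      have e3 : (3:ℝ) ≤ Real.log X * (1 / 10) + -(D * l) := by nlinarith
      have e4 := Real.exp_le_exp.2 e3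
      have e5 : (8:ℝ) ≤ Real.exp 3 := by
        have e6 : Real.exp 3 = Real.exp 1 ^ 3 := by rw [← Real.exp_nat_mul]; norm_num
        have e7 : (2:ℝ) ≤ Real.exp 1 := by linarith [Real.exp_one_gt_d9]
        rw [e6]
        calc (8:ℝ) = 2 ^ 3 := by norm_num
          _ ≤ Real.exp 1 ^ 3 := pow_le_pow_left₀ (by norm_num) e7 3
      linarith
    calc 8 * X ^ ((9:ℝ) / 10) ≤ (X ^ ((1:ℝ) / 10) * δ ^ D) * X ^ ((9:ℝ) / 10) :=
          mul_le_mul_of_nonneg_right e2 (by positivity)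
      _ = (X ^ ((9:ℝ) / 10) * X ^ ((1:ℝ) / 10)) * δ ^ D := by ring
      _ = X * δ ^ D := by rw [← e1]
  have h3 : (1:ℝ) ≤ X ^ ((9:ℝ) / 10) := Real.one_le_rpow hX (by norm_num)
  linarith

theorem t_SUPC (hTB : S_TB) (hZ : S_Z2) (hC : S_CON) : S_SUPC := by
  intro V D hV hD
  have hV0 : 0 < V := by linarith
  obtain ⟨D1, hD1⟩ : ∃ D1, D1 = 2 * D + 6 := ⟨_, rfl⟩
  obtain ⟨C, hC0, lam1, δ1, hlam1, hδ1, hδ1', hT⟩ := hTB V D1 hV0 (by rw [hD1]; linarith)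
  obtain ⟨lam2, δ2, hlam2, hδ2, hδ2', hZ⟩ := hZ
  obtain ⟨K, hK⟩ : ∃ K : ℝ, K = 32 * 2 ^ D1 + 320 := ⟨_, rfl⟩
  have hK0 : 0 < K := by rw [hK]; positivity
  obtain ⟨δ3, hδ3, hsm⟩ := small (D := D) hK0
  obtain ⟨C', hC'⟩ : ∃ C' : ℝ, C' = 32 * C * (2 ^ (2 * V) * (2 ^ (V ^ 2) * 2)) := ⟨_, rfl⟩
  have hC'0 : 0 < C' := by rw [hC']; positivity
  obtain ⟨lam, hlam⟩ : ∃ lam, lam = 8 * lam1 + lam2 + (10 * D + 50) := ⟨_, rfl⟩
  obtain ⟨δ0, hδ0⟩ : ∃ δ0, δ0 = min (min (δ1 / 2) δ2) (min δ3 (1 / 16)) := ⟨_, rfl⟩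
  have hd0 : 0 < δ0 := by
    rw [hδ0]; exact lt_min (lt_min (by positivity) hδ2) (lt_min hδ3 (by norm_num))
  have hd1 : δ0 ≤ δ1 / 2 := by rw [hδ0]; exact (min_le_left _ _).trans (min_le_left _ _)
  have hd2 : δ0 ≤ δ2 := by rw [hδ0]; exact (min_le_left _ _).trans (min_le_right _ _)
  have hd3 : δ0 ≤ δ3 := by rw [hδ0]; exact (min_le_right _ _).trans (min_le_left _ _)
  have hd4 : δ0 ≤ 1 / 16 := by rw [hδ0]; exact (min_le_right _ _).trans (min_le_right _ _)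
  refine ⟨C', hC'0, lam, δ0, by rw [hlam]; positivity, hd0, hd4, ?_⟩
  have h2X : Tendsto (fun X : ℝ => 2 * X) atTop atTop := tendsto_id.const_mul_atTop (by norm_num)
  filter_upwards [h2X.eventually hT, hZ, eventually_ge_atTop 2] with X hX1 hX2 hX3 δ hδ hδs hlamδ c hc
  have hX0 : 0 < X := by linarith
  have hδ16 : δ ≤ 1 / 16 := hδs.trans hd4
  have hll : 1 ≤ Real.log (1 / δ) := by
    have h16 : (16:ℝ) ≤ 1 / δ := by rw [le_div_iff₀ hδ]; linarith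
    rw [Real.le_log_iff_exp_le (by positivity)]
    linarith [Real.exp_one_lt_d9]
  have hLX : 0 ≤ Real.log X := Real.log_nonneg (by linarith)
  have hl2 : 0 ≤ Real.log (1 / δ) ^ 2 := by positivity
  have hc0 : 0 < c := by linarith
  -- the nearby lines
  have hTB' : ∀ σ : ℝ, δ / 2 ≤ σ → σ ≤ 3 * δ / 2 → ∀ c' : ℝ, 0 < c' →
      volume {t : ℝ | 0 ≤ t ∧ t ≤ 2 * X ∧ c' < mz σ t} ≤ ENNReal.ofReal (2 * X * (σ ^ D1 + C * nu V σ c')) := by
    intro σ h1 h2 c' hc'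
    have hσ : 0 < σ := by linarith
    refine hX1 σ hσ (by linarith) ?_ c' hc'
    have e1 : Real.log (1 / σ) ≤ 2 * Real.log (1 / δ) := by
      have e2 : 2 * Real.log (1 / δ) = Real.log ((1 / δ) ^ 2) := by rw [Real.log_pow]; push_cast; ring
      rw [e2]
      refine Real.log_le_log (by positivity) ?_
      have e3 : 1 / σ ≤ 2 / δ := by
        rw [div_le_div_iff₀ hσ hδ]; linarith
      refine e3.trans ?_
      rw [div_pow, one_pow, div_le_div_iff₀ hδ (by positivity)]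
      nlinarith
    have e0 : 0 ≤ Real.log (1 / σ) := Real.log_nonneg (by rw [le_div_iff₀ hσ]; linarith)
    have e4 : Real.log (1 / σ) ^ 2 ≤ 4 * Real.log (1 / δ) ^ 2 := by
      have := pow_le_pow_left₀ e0 e1 2
      linarith [this, (by ring : (2 * Real.log (1 / δ)) ^ 2 = 4 * Real.log (1 / δ) ^ 2)]
    have e5 : Real.log X ≤ Real.log (2 * X) := Real.log_le_log hX0 (by linarith)
    have e6 : lam1 * Real.log (1 / σ) ^ 2 ≤ lam1 * (4 * Real.log (1 / δ) ^ 2) :=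
      mul_le_mul_of_nonneg_left e4 hlam1.le
    have e7 : 8 * lam1 * Real.log (1 / δ) ^ 2 ≤ δ * Real.log X := by
      refine le_trans (mul_le_mul_of_nonneg_right ?_ hl2) hlamδ
      rw [hlam]; linarith
    have e8 : δ / 2 * Real.log X ≤ σ * Real.log (2 * X) := mul_le_mul h1 e5 hLX hσ.le
    linarith
  have hZ' := hX2 δ hδ (hδs.trans hd2) (by
    refine le_trans (mul_le_mul_of_nonneg_right ?_ hl2) hlamδ
    rw [hlam]; linarith)
  have hpow := pow_le (lam := lam) hD hδ hδ16 (by linarith) (by rw [hlam]; linarith) hlamδ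
  -- the number of layers
  obtain ⟨n, hn1, hn2⟩ := exists_nat_pow_near (x := δ ^ (-(D + 2))) (y := (2:ℝ))
    (Real.one_le_rpow_of_pos_of_le_one_of_nonpos hδ (by linarith) (by linarith)) (by norm_num)
  obtain ⟨J, hJ⟩ : ∃ J, J = n + 1 := ⟨_, rfl⟩
  rw [← hJ] at hn2
  have hJ2 : (2:ℝ) ^ J ≤ 2 * δ ^ (-(D + 2)) := by
    rw [hJ, pow_succ]; linarith
  have hδp : 0 < δ ^ (-(D + 2)) := Real.rpow_pos_of_pos hδ _
  obtain ⟨a, ha⟩ : ∃ a, a = c / 2 := ⟨_, rfl⟩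
  have ha0 : 0 < a := by rw [ha]; positivity
  have ha1 : 1 / 2 ≤ a := by rw [ha]; linarith
  have hc2 : c = 2 * a := by rw [ha]; ring
  have hX9 : X ^ ((9:ℝ) / 10) ≤ 2 * X := by
    have : X ^ ((9:ℝ) / 10) ≤ X ^ (1:ℝ) := Real.rpow_le_rpow_of_exponent_le (by linarith) (by norm_num)
    rw [Real.rpow_one] at this
    linarith
  have hX90 : 0 ≤ X ^ ((9:ℝ) / 10) := by positivity
  obtain ⟨m, hm⟩ : ∃ m : ℝ, m = 2 ^ (2 * V) * (2 ^ (V ^ 2) * 2) * nu V δ c := ⟨_, rfl⟩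
  have hnu0 := nu_nonneg hC hV0 hδ hc0
  have hm0 : 0 ≤ m := by rw [hm]; positivity
  obtain ⟨S, hS⟩ : ∃ S : ℝ, S = 2 * X * a * (2 ^ (J + 1) * (2 * δ) ^ D1 + 4 * C * m) + X * (20 / δ) / (2 ^ J * a) :=
    ⟨_, rfl⟩
  have hS0 : 0 ≤ S := by rw [hS]; positivity
  have hint : ∀ σ : ℝ, δ / 2 ≤ σ → σ ≤ 3 * δ / 2 → ∫⁻ t in Ioo (X ^ ((9:ℝ) / 10)) (2 * X), Cell.big a (mz σ t) ≤
      ENNReal.ofReal S := by
    intro σ h1 h2
    have hσ : 0 < σ := by linarith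
    refine (Cell.layers (σ := σ) (by linarith) ha0 hX9 J).trans ?_
    have hnuσ : nu V σ a ≤ m := by
      have e1 := nu_dist hC hV0 hδ hδ16 h1 h2 ha0
      have e2 : nu V δ a = 2 ^ (2 * V) * nu V δ c := by
        have e3 := nu_level (V := V) (δ := δ) (b := 2⁻¹) (by norm_num) hc0
        have e4 : 2⁻¹ * c = a := by rw [ha]; ring
        rw [e4] at e3
        rw [e3, Real.inv_rpow (by norm_num), ← Real.rpow_neg (by norm_num), neg_neg]
      rw [e2] at e1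
      rw [hm]
      linarith
    have hnuσ0 := nu_nonneg hC hV0 hσ ha0
    have h3 : ∀ j ∈ Finset.range J, ENNReal.ofReal (2 ^ (j + 1) * a) *
        volume {t : ℝ | X ^ ((9:ℝ) / 10) < t ∧ t < 2 * X ∧ 2 ^ j * a < mz σ t} ≤
        ENNReal.ofReal ((2:ℝ) ^ (j + 1) * a * (2 * X * (σ ^ D1 + C * (((2:ℝ) ^ j) ^ (-(2 * V)) * nu V σ a)))) := by
      intro j _
      rw [ENNReal.ofReal_mul (show (0:ℝ) ≤ 2 ^ (j + 1) * a by positivity)]
      refine mul_le_mul_right ?_ _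
      have e1 := hTB' σ h1 h2 (2 ^ j * a) (by positivity)
      rw [nu_level (by positivity) ha0] at e1
      refine le_trans (measure_mono fun t ht => ?_) e1
      exact ⟨hX90.trans ht.1.le, ht.2.1.le, ht.2.2⟩
    refine (add_le_add (Finset.sum_le_sum h3) le_rfl).trans ?_
    rw [← ENNReal.ofReal_sum_of_nonneg (fun j _ => by positivity),
      ← ENNReal.ofReal_add (Finset.sum_nonneg fun j _ => by positivity)
        (mul_nonneg (by positivity) (intervalIntegral.integral_nonneg hX9 fun t _ => by positivity))]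
    apply ENNReal.ofReal_le_ofReal
    have h4 := layer_sum (V := V) (C := C) (D1 := D1) hV hC0 hX0 ha0 hσ hnuσ0 J
    have h5 := hZ' σ h1 h2
    have h6 : 1 / (2 ^ J * a) * ∫ t in (X ^ ((9:ℝ) / 10))..(2 * X), mz σ t ^ 2 ≤ X * (20 / δ) / (2 ^ J * a) := by
      rw [div_mul_eq_mul_div, one_mul]
      exact div_le_div_of_nonneg_right h5 (by positivity)
    have h7 : 2 * X * a * (2 ^ (J + 1) * σ ^ D1 + 4 * C * nu V σ a) ≤
        2 * X * a * (2 ^ (J + 1) * (2 * δ) ^ D1 + 4 * C * m) := by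
      refine mul_le_mul_of_nonneg_left ?_ (by positivity)
      have e1 : σ ^ D1 ≤ (2 * δ) ^ D1 := Real.rpow_le_rpow hσ.le (by linarith) (by rw [hD1]; linarith)
      have e2 : (2:ℝ) ^ (J + 1) * σ ^ D1 ≤ 2 ^ (J + 1) * (2 * δ) ^ D1 := mul_le_mul_of_nonneg_left e1 (by positivity)
      have e3 : 4 * C * nu V σ a ≤ 4 * C * m := mul_le_mul_of_nonneg_left hnuσ (by positivity)
      linarith
    rw [hS]
    linarith
  have hcell := Cell.cell (X1 := X ^ ((9:ℝ) / 10)) (X2 := 2 * X) hδ hδ16 ha0 hS0 hint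
  -- the sizes
  have hfin : 12 * S / (π * a) ≤ X * (δ ^ D / 4 + C' * nu V δ c) := by
    have e0 : 12 * S / (π * a) ≤ 4 * S / a := by
      rw [div_le_div_iff₀ (by positivity) ha0]
      have := Real.pi_gt_three
      have e1 : 0 ≤ S * a := by positivity
      nlinarith
    refine e0.trans ?_
    have e1 : 4 * S / a = 8 * X * (2 ^ (J + 1) * (2 * δ) ^ D1) + X * (32 * C * m) + 80 * X / (δ * 2 ^ J * a ^ 2) := by
      rw [hS]; field_simp; ring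
    rw [e1]
    have e2 : X * (32 * C * m) = X * (C' * nu V δ c) := by rw [hm, hC']; ring
    have e3 : 8 * X * (2 ^ (J + 1) * (2 * δ) ^ D1) ≤ X * (32 * 2 ^ D1 * δ ^ (D + 1)) := by
      have f1 : (2:ℝ) ^ (J + 1) * (2 * δ) ^ D1 ≤ 4 * 2 ^ D1 * δ ^ (D + 1) := by
        have f2 : (2 * δ) ^ D1 = 2 ^ D1 * δ ^ D1 := Real.mul_rpow (by norm_num) hδ.le
        have f3 : (2:ℝ) ^ (J + 1) ≤ 4 * δ ^ (-(D + 2)) := by rw [pow_succ]; linarith
        have f4 : δ ^ (-(D + 2)) * δ ^ D1 = δ ^ (D + 4) := by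
          rw [← Real.rpow_add hδ, hD1]; congr 1; ring
        have f5 : δ ^ (D + 4) ≤ δ ^ (D + 1) := Real.rpow_le_rpow_of_exponent_ge hδ (by linarith) (by linarith)
        have f6 : (0:ℝ) < 2 ^ D1 := by positivity
        calc (2:ℝ) ^ (J + 1) * (2 * δ) ^ D1 ≤ 4 * δ ^ (-(D + 2)) * (2 * δ) ^ D1 :=
              mul_le_mul_of_nonneg_right f3 (by positivity)
          _ = 4 * 2 ^ D1 * (δ ^ (-(D + 2)) * δ ^ D1) := by rw [f2]; ring
          _ = 4 * 2 ^ D1 * δ ^ (D + 4) := by rw [f4]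
          _ ≤ 4 * 2 ^ D1 * δ ^ (D + 1) := mul_le_mul_of_nonneg_left f5 (by positivity)
      calc 8 * X * (2 ^ (J + 1) * (2 * δ) ^ D1) ≤ 8 * X * (4 * 2 ^ D1 * δ ^ (D + 1)) :=
            mul_le_mul_of_nonneg_left f1 (by positivity)
        _ = _ := by ring
    have e4 : 80 * X / (δ * 2 ^ J * a ^ 2) ≤ X * (320 * δ ^ (D + 1)) := by
      have f1 : δ ^ (-(D + 1)) ≤ δ * 2 ^ J := by
        have f2 : δ ^ (-(D + 1)) = δ * δ ^ (-(D + 2)) := by
          rw [show -(D + 1) = 1 + -(D + 2) by ring, Real.rpow_add hδ, Real.rpow_one]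
        rw [f2]
        exact mul_le_mul_of_nonneg_left hn2.le hδ.le
      have f3 : 1 / 4 ≤ a ^ 2 := by nlinarith
      have f4 : 0 < δ ^ (-(D + 1)) := Real.rpow_pos_of_pos hδ _
      have f5 : δ ^ (-(D + 1)) * (1 / 4) ≤ δ * 2 ^ J * a ^ 2 := mul_le_mul f1 f3 (by norm_num) (by positivity)
      calc 80 * X / (δ * 2 ^ J * a ^ 2) ≤ 80 * X / (δ ^ (-(D + 1)) * (1 / 4)) :=
            div_le_div_of_nonneg_left (by positivity) (by positivity) f5
        _ = X * (320 * δ ^ (D + 1)) := by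
            rw [Real.rpow_neg hδ.le]
            have f6 : (δ ^ (D + 1)) ≠ 0 := (Real.rpow_pos_of_pos hδ _).ne'
            field_simp
            ring
    have e5 := hsm δ hδ (hδs.trans hd3)
    have e6 : X * (K * δ ^ (D + 1)) ≤ X * (δ ^ D / 4) := mul_le_mul_of_nonneg_left e5 hX0.le
    have e7 : X * (K * δ ^ (D + 1)) = X * (32 * 2 ^ D1 * δ ^ (D + 1)) + X * (320 * δ ^ (D + 1)) := by
      rw [hK]; ring
    rw [e2]
    have e8 : X * (δ ^ D / 4 + C' * nu V δ c) = X * (δ ^ D / 4) + X * (C' * nu V δ c) := by ring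
    rw [e8]
    linarith
  -- conclusion
  have hsub : {t : ℝ | 0 ≤ t ∧ t ≤ X ∧ ∃ u : ℝ, t ≤ u ∧ u ≤ t + δ ∧ c ≤ mz δ u} ⊆
      Icc 0 (X ^ ((9:ℝ) / 10) + 1) ∪ {t : ℝ | X ^ ((9:ℝ) / 10) + δ ≤ t ∧ t + 2 * δ ≤ 2 * X ∧
        ∃ u : ℝ, t ≤ u ∧ u ≤ t + δ ∧ 2 * a ≤ mz δ u} := by
    rintro t ⟨h1, h2, h3⟩
    rcases le_or_gt t (X ^ ((9:ℝ) / 10) + 1) with h4 | h4
    · exact Or.inl ⟨h1, h4⟩
    · refine Or.inr ⟨by linarith, by linarith, ?_⟩
      rw [← hc2]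
      exact h3
  calc volume {t : ℝ | 0 ≤ t ∧ t ≤ X ∧ ∃ u : ℝ, t ≤ u ∧ u ≤ t + δ ∧ c ≤ mz δ u}
      ≤ volume (Icc 0 (X ^ ((9:ℝ) / 10) + 1)) + volume {t : ℝ | X ^ ((9:ℝ) / 10) + δ ≤ t ∧ t + 2 * δ ≤ 2 * X ∧
        ∃ u : ℝ, t ≤ u ∧ u ≤ t + δ ∧ 2 * a ≤ mz δ u} := (measure_mono hsub).trans (measure_union_le _ _)
    _ ≤ ENNReal.ofReal (X * (δ ^ D / 4)) + ENNReal.ofReal (X * (δ ^ D / 4 + C' * nu V δ c)) := by
        refine add_le_add ?_ (hcell.trans (ENNReal.ofReal_le_ofReal hfin))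
        rw [Real.volume_Icc, sub_zero]
        exact ENNReal.ofReal_le_ofReal hpow
    _ = ENNReal.ofReal (X * (δ ^ D / 4) + X * (δ ^ D / 4 + C' * nu V δ c)) :=
        (ENNReal.ofReal_add (by positivity) (by positivity)).symm
    _ ≤ ENNReal.ofReal (X * (δ ^ D + C' * nu V δ c)) := by
        apply ENNReal.ofReal_le_ofReal
        have e1 : 0 ≤ X * δ ^ D := by positivity
        have e2 : X * (δ ^ D / 4) + X * (δ ^ D / 4 + C' * nu V δ c) = X * δ ^ D / 2 + X * (C' * nu V δ c) := by ring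
        have e3 : X * (δ ^ D + C' * nu V δ c) = X * δ ^ D + X * (C' * nu V δ c) := by ring
        rw [e2, e3]
        linarith

/-- the same, from the mean square on the critical line -/
theorem t_SUPC' (hTB : S_TB) (hZ : S_ZM1) (hC : S_CON) : S_SUPC := t_SUPC hTB (Z2.main hZ) hC

end Pool.Agent.V5helper16.EG.SUPC
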